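import Pool.Agent.W837.GB.Defs

/-!
# Project GB: smoothness and derivative of the resolvent
-/

set_option autoImplicit false
set_option linter.unusedSectionVars false

open MeasureTheory ProbabilityTheory Filter Topology
open scoped NNReal Matrix ComplexOrder

namespace Pool.Agent.W397.GB

open Pool.Agent.W837.GB

section gen

variable {E : Type} [NormedAddCommGroup E] [NormedSpace ℝ E] {κ : Type} [Fintype κ] [DecidableEq κ]

lemma contDiff_det {B : E → Matrix κ κ ℂ} (h : ∀ i j, ContDiff ℝ 1 fun g => B g i j) :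
    ContDiff ℝ 1 fun g => (B g).det := by
  simp only [Matrix.det_apply']
  refine ContDiff.sum fun σ _ => ?_
  exact contDiff_const.mul (contDiff_prod fun i _ => h _ _)

lemma contDiff_inv {B : E → Matrix κ κ ℂ} (h : ∀ i j, ContDiff ℝ 1 fun g => B g i j)
    (hd : ∀ g, (B g).det ≠ 0) (i j : κ) : ContDiff ℝ 1 fun g => (B g)⁻¹ i j := by
  have e : (fun g => (B g)⁻¹ i j) =
      fun g => ((B g).det)⁻¹ * ((B g).updateRow j (Pi.single i 1)).det := by
    funext g
    rw [Matrix.inv_def, Matrix.smul_apply, Matrix.adjugate_apply, Ring.inverse_eq_inv',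
      smul_eq_mul]
  rw [e]
  refine ((contDiff_det h).inv hd).mul (contDiff_det fun a b => ?_)
  by_cases hab : a = j
  · subst hab
    simp only [Matrix.updateRow_self]
    exact contDiff_const
  · simp only [Matrix.updateRow_ne hab]
    exact h a b

lemma fderiv_inv {B : E → Matrix κ κ ℂ} (h : ∀ i j, ContDiff ℝ 1 fun g => B g i j)
    (hd : ∀ g, (B g).det ≠ 0) (g v : E) (D : Matrix κ κ ℂ)
    (hD : ∀ i j, fderiv ℝ (fun g => B g i j) g v = D i j) (i j : κ) :
    fderiv ℝ (fun g => (B g)⁻¹ i j) g v = -((B g)⁻¹ * D * (B g)⁻¹) i j := by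
  set R' : Matrix κ κ ℂ := fun i j => fderiv ℝ (fun g => (B g)⁻¹ i j) g v with hR'
  have h1 : R' * B g + (B g)⁻¹ * D = 0 := by
    ext i j
    have h2 : ∀ g, ∑ k, (B g)⁻¹ i k * B g k j = (1 : Matrix κ κ ℂ) i j := by
      intro g
      rw [← Matrix.mul_apply, Matrix.nonsing_inv_mul _ (Ne.isUnit (hd g))]
    have h3 : HasFDerivAt (fun g => ∑ k, (B g)⁻¹ i k * B g k j)
        (∑ k, ((B g)⁻¹ i k • fderiv ℝ (fun g => B g k j) g +
          B g k j • fderiv ℝ (fun g => (B g)⁻¹ i k) g)) g := by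
      refine HasFDerivAt.fun_sum fun k _ => ?_
      exact (((contDiff_inv h hd i k).differentiable (by norm_num)) g).hasFDerivAt.mul
        (((h k j).differentiable (by norm_num)) g).hasFDerivAt
    have h4 : HasFDerivAt (fun g => ∑ k, (B g)⁻¹ i k * B g k j) (0 : E →L[ℝ] ℂ) g := by
      simp_rw [h2]
      exact hasFDerivAt_const _ _
    have h5 := h3.unique h4
    have h6 := congrArg (fun L : E →L[ℝ] ℂ => L v) h5
    simp only [_root_.sum_apply, _root_.add_apply, _root_.smul_apply, smul_eq_mul,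
      _root_.zero_apply, hD] at h6
    rw [Matrix.add_apply, Matrix.mul_apply, Matrix.mul_apply, Matrix.zero_apply,
      ← Finset.sum_add_distrib, ← h6]
    apply Finset.sum_congr rfl
    intro k _
    rw [hR']
    ring
  have h2 : R' = -((B g)⁻¹ * D * (B g)⁻¹) := by
    have h3 : R' * B g = -((B g)⁻¹ * D) := eq_neg_of_add_eq_zero_left h1
    calc R' = R' * (B g * (B g)⁻¹) := by
          rw [Matrix.mul_nonsing_inv _ (Ne.isUnit (hd g)), mul_one]
      _ = -((B g)⁻¹ * D) * (B g)⁻¹ := by rw [← Matrix.mul_assoc, h3]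
      _ = _ := by rw [Matrix.neg_mul]
  calc fderiv ℝ (fun g => (B g)⁻¹ i j) g v = R' i j := rfl
    _ = _ := by rw [h2]; rfl

end gen

/-! ### the random matrix -/

lemma Hm_add {κ : Type} (g h : κ → κ → ℝ) (k l : κ) :
    Hm (fun x y => g x y + h x y) k l = Hm g k l + Hm h k l := by
  unfold Hm; push_cast; ring

lemma Hm_smul {κ : Type} (c : ℝ) (g : κ → κ → ℝ) (k l : κ) :
    Hm (fun x y => c * g x y) k l = (c : ℂ) * Hm g k l := by
  unfold Hm; push_cast; ring

lemma AN_apply {n : ℕ} {ν : Type} (a : Fin n → Matrix ν ν ℂ) (N : ℕ)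
    (g : Fin n × Fin N × Fin N → ℝ) (x y : ν × Fin N) :
    AN a N g x y = (((Real.sqrt N)⁻¹ : ℝ) : ℂ) *
      ∑ j, a j x.1 y.1 * Hm (fun k l => g (j, k, l)) x.2 y.2 := by
  unfold AN W
  rw [Matrix.smul_apply, smul_eq_mul, Matrix.sum_apply]
  rfl

/-- an entry as a linear map -/
noncomputable def ent {n : ℕ} {ν : Type} (a : Fin n → Matrix ν ν ℂ) (N : ℕ)
    (x y : ν × Fin N) : (Fin n × Fin N × Fin N → ℝ) →ₗ[ℝ] ℂ where
  toFun g := AN a N g x y
  map_add' g h := by
    rw [AN_apply, AN_apply, AN_apply, ← mul_add, ← Finset.sum_add_distrib]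
    congr 1
    apply Finset.sum_congr rfl
    intro j _
    rw [← mul_add, ← Hm_add]
    rfl
  map_smul' c g := by
    rw [AN_apply, AN_apply, RingHom.id_apply, Complex.real_smul,
      mul_left_comm (c : ℂ), Finset.mul_sum (a := (c : ℂ))]
    congr 1
    apply Finset.sum_congr rfl
    intro j _
    have : Hm (fun k l => (c • g) (j, k, l)) x.2 y.2 =
        (c : ℂ) * Hm (fun k l => g (j, k, l)) x.2 y.2 := by
      rw [← Hm_smul]; rfl
    rw [this]
    ring

lemma ent_single {n : ℕ} {ν : Type} (a : Fin n → Matrix ν ν ℂ) (N : ℕ) (x y : ν × Fin N)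
    (j : Fin n) (k l : Fin N) : AN a N (Pi.single (j, k, l) 1) x y =
      ((((Real.sqrt N)⁻¹ : ℝ) : ℂ) • Matrix.kronecker (a j) (Eb k l)) x y := by
  rw [AN_apply, Matrix.smul_apply, smul_eq_mul]
  congr 1
  rw [Finset.sum_eq_single j]
  · have : Hm (fun s t => (Pi.single (j, k, l) (1 : ℝ) : Fin n × Fin N × Fin N → ℝ) (j, s, t))
        = Eb k l := by
      unfold Eb
      congr 1
      funext s t
      rw [Pi.single_apply]
      simp only [Prod.mk.injEq, true_and]
    rw [this]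
    rfl
  · intro i _ hi
    have : ∀ s t, (Pi.single (j, k, l) (1 : ℝ) : Fin n × Fin N × Fin N → ℝ) (i, s, t) = 0 := by
      intro s t
      rw [Pi.single_apply, if_neg]
      simp [hi]
    unfold Hm
    simp only [this]
    simp
  · intro h
    exact absurd (Finset.mem_univ j) h

lemma Hm_herm {κ : Type} (g : κ → κ → ℝ) (k l : κ) :
    (starRingEnd ℂ) (Hm g k l) = Hm g l k := by
  unfold Hm
  simp only [map_add, map_mul, Complex.conj_ofReal, Complex.conj_I]
  push_cast
  ring

lemma AN_herm {n : ℕ} {ν : Type} {a : Fin n → Matrix ν ν ℂ} (ha : ∀ j, (a j).IsHermitian) (N : ℕ)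
    (g : Fin n × Fin N × Fin N → ℝ) : (AN a N g).IsHermitian := by
  ext x y
  rw [Matrix.conjTranspose_apply, AN_apply, AN_apply]
  simp only [star_mul', star_sum, RCLike.star_def, Complex.conj_ofReal]
  congr 1
  apply Finset.sum_congr rfl
  intro j _
  rw [Hm_herm]
  congr 1
  have := (ha j).apply x.1 y.1
  rw [← this]
  rfl

theorem rd (h1 : S_RES) (_h2 : S_EB) : S_RD := by
  intro ν _ _ n α N δ hα _ hδ x y
  have hB : ∀ i j, ContDiff ℝ 1 fun g : Fin n × Fin N × Fin N → ℝ =>
      (AN α N g - ((δ : ℂ) * Complex.I) • (1 : Matrix (ν × Fin N) (ν × Fin N) ℂ)) i j := by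
    intro i j
    have h3 : ContDiff ℝ 1 fun g : Fin n × Fin N × Fin N → ℝ => AN α N g i j :=
      (ent α N i j).toContinuousLinearMap.contDiff
    exact h3.sub contDiff_const
  have hd : ∀ g : Fin n × Fin N × Fin N → ℝ,
      (AN α N g - ((δ : ℂ) * Complex.I) • (1 : Matrix (ν × Fin N) (ν × Fin N) ℂ)).det ≠ 0 :=
    fun g => (h1 _ _ δ (AN_herm hα N g) hδ).1.ne_zero
  refine ⟨contDiff_inv hB hd x y, fun g j k l => ?_⟩
  have hD : ∀ i i', fderiv ℝ (fun g : Fin n × Fin N × Fin N → ℝ =>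
      (AN α N g - ((δ : ℂ) * Complex.I) • (1 : Matrix (ν × Fin N) (ν × Fin N) ℂ)) i i') g
        (Pi.single (j, k, l) 1) =
      ((((Real.sqrt N)⁻¹ : ℝ) : ℂ) • Matrix.kronecker (α j) (Eb k l)) i i' := by
    intro i i'
    have h3 : HasFDerivAt (fun g : Fin n × Fin N × Fin N → ℝ => AN α N g i i')
        (ent α N i i').toContinuousLinearMap g := (ent α N i i').toContinuousLinearMap.hasFDerivAt
    have h4 : HasFDerivAt (fun g : Fin n × Fin N × Fin N → ℝ =>
      (AN α N g - ((δ : ℂ) * Complex.I) • (1 : Matrix (ν × Fin N) (ν × Fin N) ℂ)) i i')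
        (ent α N i i').toContinuousLinearMap g := h3.sub_const _
    rw [h4.fderiv, ← ent_single]
    rfl
  have h3 := fderiv_inv hB hd g (Pi.single (j, k, l) 1) _ hD x y
  refine h3.trans ?_
  rw [Matrix.mul_smul, Matrix.smul_mul, Matrix.smul_apply, smul_eq_mul, neg_mul]
  rfl

end Pool.Agent.W397.GB
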